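import Pool.Agent.W555.KS.Defs

/-!
# Part T1EO of project KS: even and odd consequences
(helper349)
-/

set_option autoImplicit false

open Finset Pool.Agent.W555.KS

namespace W349.KS

/-- the rank of an element -/
def rk {n : ℕ} (U : Finset (Fin n)) (u : Fin n) : ℕ := (U.filter (fun w => w < u)).card

theorem rk_lt {n : ℕ} (U : Finset (Fin n)) {u v : Fin n} (hu : u ∈ U) (h : u < v) :
    rk U u < rk U v := by
  apply Finset.card_lt_card
  refine ⟨fun w hw => ?_, fun hsub => ?_⟩
  · rw [Finset.mem_filter] at hw ⊢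
    exact ⟨hw.1, hw.2.trans h⟩
  · have := hsub (Finset.mem_filter.2 ⟨hu, h⟩)
    rw [Finset.mem_filter] at this
    exact lt_irrefl _ this.2

theorem rk_inj {n : ℕ} (U : Finset (Fin n)) : Set.InjOn (rk U) U := by
  intro u hu v hv h
  rcases lt_trichotomy u v with h1 | h1 | h1
  · exact absurd h (rk_lt U hu h1).ne
  · exact h1
  · exact absurd h (rk_lt U hv h1).ne'

theorem rk_image {n : ℕ} (U : Finset (Fin n)) : U.image (rk U) = range U.card := by
  apply Finset.eq_of_subset_of_card_le
  · intro i hi
    rw [Finset.mem_image] at hi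
    obtain ⟨u, hu, rfl⟩ := hi
    rw [Finset.mem_range]
    apply Finset.card_lt_card
    refine ⟨Finset.filter_subset _ _, fun hsub => ?_⟩
    have := hsub hu
    rw [Finset.mem_filter] at this
    exact lt_irrefl _ this.2
  · rw [Finset.card_range, Finset.card_image_of_injOn (rk_inj U)]

theorem card_even_range (N : ℕ) : ((range N).filter Even).card = (N + 1) / 2 := by
  induction N with
  | zero => rfl
  | succ N ih =>
    rw [Finset.range_add_one, Finset.filter_insert]
    by_cases h : Even N
    · rw [if_pos h, Finset.card_insert_of_notMem (by simp), ih]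
      obtain ⟨r, hr⟩ := h
      omega
    · rw [if_neg h, ih]
      rw [Nat.not_even_iff_odd] at h
      obtain ⟨r, hr⟩ := h
      omega

theorem card_evenPart {n : ℕ} (U : Finset (Fin n)) : (evenPart U).card = (U.card + 1) / 2 := by
  rw [← card_even_range, ← rk_image, Finset.filter_image,
    Finset.card_image_of_injOn ((rk_inj U).mono (Finset.coe_subset.2 (Finset.filter_subset _ _)))]
  rfl

theorem card_oddPart {n : ℕ} (U : Finset (Fin n)) : (oddPart U).card = U.card / 2 := by
  have h1 : (evenPart U).card + (oddPart U).card = U.card :=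
    Finset.card_filter_add_card_filter_not (s := U)
      (fun u => Even (U.filter (fun w => w < u)).card)
  have h2 := card_evenPart U
  omega

theorem t1e (h1 : StT1) (h2 : StAlg) : StT1E := by
  intro k R _ _ _ _ n d q s L a x M ω hL hVK hx ha hω hd hωs
  have alg : ∀ (D : ℕ) (_ : D = 2 * q) (a : Fin D → Fin n → k) (x : Fin n → R) (M : R →ₗ[k] k),
      (∀ i : Fin D, (i : ℕ) + 1 < D → ∑ v, a i v • x v = 0) →
      ∑ U ∈ powersetCard D univ,
          bra a U * M (∏ v ∈ evenPart U, x v) * M (∏ v ∈ oddPart U, x v)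
        = ∑ h ∈ (univ : Finset (Fin D → Fin n)).filter EvenFun,
            (∏ i, a i (h i)) * M (halfMon x h) ^ 2 := by
    intro D hD
    subst hD
    exact h2 k R n q
  have e1 := h1 k R n d (q + s) L a x M ω hL hVK hx ha hω (by omega)
    (by rw [show 2 * (q + s) - d = 2 * s + 1 by omega]; exact hωs)
  have e2 := alg (d + 1) hd a x (M.comp (LinearMap.mulLeft k (ω ^ s))) (by
    intro i hi
    have h3 : i = (⟨i, by omega⟩ : Fin d).castSucc := by
      ext
      rfl
    rw [h3]
    exact ha _)
  simp only [LinearMap.comp_apply, LinearMap.mulLeft_apply] at e2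
  rw [← e2, ← e1]
  refine Finset.sum_congr rfl fun U hU => ?_
  rw [Finset.mem_powersetCard] at hU
  rw [card_evenPart, card_oddPart, hU.2, show q + s - (d + 1 + 1) / 2 = s by omega,
    show q + s - (d + 1) / 2 = s by omega]

theorem t1o (h1 : StT1) (h2 : StAlgO) : StT1O := by
  intro k R _ _ _ _ n d q s L a x M ω hL hVK hx ha hω hd hs hωs
  subst hd
  have e1 := h1 k R n (2 * q) (q + s) L a x M ω hL hVK hx ha hω (by omega)
    (by rw [show 2 * (q + s) - 2 * q = 2 * s by omega]; exact hωs)
  have e2 := h2 k R n q a x (M.comp (LinearMap.mulLeft k (ω ^ (s - 1)))) ha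
  simp only [LinearMap.comp_apply, LinearMap.mulLeft_apply, ← hω, ← mul_assoc, ← pow_succ] at e2
  rw [show s - 1 + 1 = s by omega] at e2
  rw [← e2, ← e1]
  refine Finset.sum_congr rfl fun U hU => ?_
  rw [Finset.mem_powersetCard] at hU
  rw [card_evenPart, card_oddPart, hU.2, show q + s - (2 * q + 1 + 1) / 2 = s - 1 by omega,
    show q + s - (2 * q + 1) / 2 = s by omega]

end W349.KS
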